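import Mathlib
import Pool.Agent.X124.BoxMain

/-!
# A universal weighted Khintchine theorem for random sequences

The definitions (`Cube`, `seqLaw`, `W`) are in `Pool.Agent.X124.BoxDefs`.
-/

namespace Pool.Agent.Results.MP_bc03d6_nt.UniversalKhintchine

open MeasureTheory Pool.Agent.X124.BoxDefs

/-- For almost every sequence `ω` of points of `[0,1]^n` the following holds simultaneously for
all `n`-tuples of non-increasing positive functions `ψ_i`: if `∑_j ∏_i ψ_i(j) = ∞`, then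
`W_ω(Ψ)` has full measure. -/
theorem result (n : ℕ) (hn : 1 ≤ n) :
    ∀ᵐ ω ∂(seqLaw n), ∀ ψ : Fin n → ℕ → ℝ, (∀ i j, 0 < ψ i j) → (∀ i, Antitone (ψ i)) →
      ¬ Summable (fun j => ∏ i, ψ i j) → volume (W ω ψ) = 1 := by
  have h : ∀ᵐ ω ∂(seqLaw n), ∀ m : ℕ, ∀ᶠ k in Filter.atTop,
      ω ∉ Pool.Agent.X124.BoxMain.E (n := n) (1 / ((m : ℝ) + 1)) k :=
    ae_all_iff.2 fun m => Pool.Agent.X124.BoxMain.ae_good (by positivity)
  filter_upwards [h] with ω hω ψ hpos hanti hdiv
  exact Pool.Agent.X124.BoxMain.full hpos hanti hn hdiv hω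

end Pool.Agent.Results.MP_bc03d6_nt.UniversalKhintchine
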